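import Pool.Agent.X293.EV.Main
import Pool.Agent.Results.MP_7193be_nt.PowersCM6725

/-!
# The even degree L-functions of the powers of an elliptic curve with complex multiplication

Let `E : y² = x³ - x` and `X = E^g`, projective and smooth over `ℤ[1/2]`.  For an odd prime `p` let
`α_p, β_p` be the roots of `T² - a_p T + p`.  By the Künneth formula
`P_i(X(p), T) = ∏_{a+b=i} (1 - α_p^a β_p^b T)^{C(g,a) C(g,b)}` and
`L(i; X, s) = ∏_{p ≠ 2} P_i(X(p), p^{-s})⁻¹`.

We prove for all `g` and all EVEN `i = 2m`, `0 < i < 2g`: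

* `L(i; X, s)` has a meromorphic continuation, and its only pole is at `s = m + 1`; with `c = C(g, m)` the
  order of the pole is exactly `c (c + 1) / 2` (the rank of the group of algebraic cycles of codimension `m`
  over `ℚ` predicted by Tate);
* without any hypothesis, at least 67.25 per cent of its zeros `s` with `i/2 < Re s < i/2 + 1`,
  `T < Im s ≤ 2T`, counted with multiplicity, lie on the critical line `Re s = (i+1)/2`, as soon as
  `T ≥ T₀` and `n^(1/2-η) ≤ T ≤ n^(1/2+η)`, where `n = min(i, 2g-i)` and `T₀`, `η > 0` are absolute.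

The variety and the degree are arbitrary, there is no average over a family of varieties.  The starting
file PowersCM6725 treats the odd degrees, where the L-function is entire; the two theorems together cover
all degrees.

Proof.  Let `ψ` be the Hecke character of `ℚ(i)` of the curve and `χ` the character modulo 4.  Then, up to
factors at `2` without zeros for `Re s > i/2`,

  `L(2m; X, s) = ζ(s-m)^{c(c+1)/2} L(s-m, χ)^{c(c-1)/2} ∏_{l=1}^m L(s-m, ψ^(2l))^{C(g,m-l) C(g,m+l)}`.

The exponents of `ζ` and `L(s, χ)` come from the inert primes, where `α_p² = β_p² = -p`, and from the identity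
`∑_{a+b=2m} (-1)^{a+m} C(g,a) C(g,b) = C(g,m)`.  The characters `ψ^(2l)` have infinity type `2l` and
conductor `2` or `1`; `L(1, ψ^(2l)) ≠ 0` by the classical inequality `3 + 4 cos + cos 2 ≥ 0`.  For the
L-functions `L(s, ψ^k)`, `k` in a class modulo 4 and in an interval of length about `T`, the theorem of
the starting library (`Pool.Agent.W354.FK.fk_slack`: trace inequality, explicit formula uniform in `k`,
large sieve on the cylinder of the Gaussian primes) gives the proportion.  The multiplicities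
`C(g,m-l) C(g,m+l)` form a decreasing sequence of width about `√n`, and the zeros of `ζ` and of `L(s, χ)`,
with their multiplicities `≤ c²`, are negligible for large `T`.
-/

set_option autoImplicit false

open Filter Topology

namespace Pool.Agent.Results.MP_7193be_nt.EvenPowers6725

open Pool.Agent.Results.MP_7193be_nt.PowersCM6725 (FrobeniusRoots P zeros N N₀)

/-- `c (c + 1) / 2`, where `c = C(g, m)` -/
def poleOrder (g m : ℕ) : ℕ := (g.choose m + 1).choose 2

/-- `F` is the meromorphic continuation of `L(2m; E^g, s) = ∏_{p ≠ 2} P_{2m}(X(p), p^{-s})⁻¹`: it is analytic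
outside the point `s = m + 1` and has a pole of order exactly `c (c + 1) / 2` there. -/
structure IsHasseWeil (g m : ℕ) (F : ℂ → ℂ) : Prop where
  analytic : DifferentiableOn ℂ F {(m : ℂ) + 1}ᶜ
  pole : ∃ c : ℂ, c ≠ 0 ∧
    Tendsto (fun s => (s - ((m : ℂ) + 1)) ^ poleOrder g m * F s) (𝓝[≠] ((m : ℂ) + 1)) (𝓝 c)
  euler : ∀ α β : ℕ → ℂ, FrobeniusRoots α β → ∀ s : ℂ, (m : ℝ) + 1 < s.re →
    HasProd (fun p : {p : ℕ // p.Prime ∧ p ≠ 2} => (P g (2 * m) (α p) (β p) p s)⁻¹) (F s)

open Pool.Agent.X293.EV in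
theorem result : ∃ (L : ℕ → ℕ → ℂ → ℂ) (T₀ η : ℝ), 0 < η ∧ ∀ g m : ℕ, 1 ≤ m → m < g →
    IsHasseWeil g m (L g m) ∧
    ∀ T : ℝ, T₀ ≤ T → ((min (2 * m) (2 * g - 2 * m) : ℕ) : ℝ) ^ (1 / 2 - η) ≤ T →
      T ≤ ((min (2 * m) (2 * g - 2 * m) : ℕ) : ℝ) ^ (1 / 2 + η) →
      (zeros (L g m) (2 * m) T (2 * T)).Finite ∧ 0 < N (L g m) (2 * m) T (2 * T) ∧
        0.6725 * (N (L g m) (2 * m) T (2 * T) : ℝ) ≤ (N₀ (L g m) (2 * m) T (2 * T) : ℝ) := by
  obtain ⟨T0, η, hT0, hη, H⟩ := main_even
  have hcast : ∀ m : ℕ, ((2 * m : ℕ) : ℂ) / 2 = m := fun m => by push_cast; ring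
  refine ⟨fun g m s => Fev g m (s - ((2 * m : ℕ) : ℂ) / 2), T0, η, hη, ?_⟩
  intro g m hm hg
  refine ⟨⟨?_, ?_, ?_⟩, fun T hT h1 h2 => ?_⟩
  · simp only [hcast]
    refine (Fev_diff g m).comp ((differentiable_id.sub_const _).differentiableOn) ?_
    intro s hs h0
    have h1 : s - (m : ℂ) = 1 := h0
    exact hs (by rw [Set.mem_singleton_iff]; linear_combination h1)
  · obtain ⟨c, hc, hlim⟩ := Fev_pole g m
    refine ⟨c, hc, ?_⟩
    simp only [hcast]
    have ht : Tendsto (fun s : ℂ => s - m) (𝓝[≠] ((m : ℂ) + 1)) (𝓝[≠] 1) := by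
      refine tendsto_nhdsWithin_iff.2 ⟨?_, ?_⟩
      · have : Tendsto (fun s : ℂ => s - m) (𝓝 ((m : ℂ) + 1)) (𝓝 ((m : ℂ) + 1 - m)) :=
          (continuous_id.sub continuous_const).tendsto _
        rw [add_sub_cancel_left] at this
        exact this.mono_left nhdsWithin_le_nhds
      · filter_upwards [self_mem_nhdsWithin] with s hs h0
        have h1 : s - (m : ℂ) = 1 := h0
        exact hs (by rw [Set.mem_singleton_iff]; linear_combination h1)
    refine (hlim.comp ht).congr fun s => ?_
    show (s - m - 1) ^ mz g m * Fev g m (s - m) = (s - ((m : ℂ) + 1)) ^ poleOrder g m * Fev g m (s - m)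
    have e : s - (m : ℂ) - 1 = s - ((m : ℂ) + 1) := by ring
    rw [e]
    rfl
  · intro α β hαβ s hs
    have h := Fev_prod g m α β hαβ s (by linarith)
    simp only [hcast]
    exact h
  · obtain ⟨k1, k2⟩ := H g m T hm hg hT h1 h2
    rw [PowersCM6725.N_eq (Fev g m), PowersCM6725.N₀_eq (Fev g m)]
    refine ⟨?_, k2, k1⟩
    rw [PowersCM6725.zeros_eq (Fev g m)]
    have hfin := (Fev_counts g m (by linarith : 1 ≤ T)).1
    refine (hfin.preimage (f := fun s : ℂ => s - ((2 * m : ℕ) : ℂ) / 2)
      ((sub_left_injective).injOn)).subset ?_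
    rintro s ⟨hs1, hs2⟩
    exact ⟨hs1, hs2⟩

end Pool.Agent.Results.MP_7193be_nt.EvenPowers6725
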