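import Pool.Agent.X284.HW.P

/-!
# Zeros of Hasse–Weil L-functions which are products of L-functions of newforms

Let `X` be smooth projective over `ℤ[1/N]` and `i` such that the Galois representation `H^i(X)` is, up
to semisimplification, a sum of Tate twists `V(f_j)(-t_j)` of Deligne's representations of newforms
`f_j` of weights `k_j = i + 1 - 2 t_j` and arbitrary levels and characters (Jacobians of modular curves
and abelian varieties of `GL₂`-type, `i = 1`; rigid Calabi–Yau threefolds over `ℚ`, `i = 3`;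
products of these with varieties having only Tate classes; ...).  The completed Hasse–Weil L-function is
`Λ(s) = ∏_j N_j^((s - i/2)/2) Γ_ℂ(s - t_j) L(f_j, s - t_j)`, and (d) says that all its zeros are on
the line `Re s = (i + 1)/2`.

We prove for every such product, without hypothesis:

* a density theorem of Selberg's type in the height aspect: for every `c < 1` at most
  `O(T^(1 - c δ) log T)` zeros with `0 < Im s ≤ T` are at distance at least `δ` from the line;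
* all zeros are on the line if and only if for every height `t` the modulus `|Λ((i+1)/2 + x + i t)|` is
  strictly increasing for `x ≥ 0`; for every `c < 1` the set of the heights `t` in `[0, T]` for
  which this fails on `x ≥ r / log T` has measure at most `O(e^(-c r) T)`;
* of the zeros of the `n`-th derivative of `Ξ(z) = Λ((i+1)/2 + √-1 z)` with `0 < Re z ≤ T` the
  proportion of those which are not real or not simple is at most `O(e^(-c n))`, uniformly in `n`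
  and `T`;
* for at most five forms: of the zeros of the heat flow `Ξ_t`, `0 < t ≤ 1/8`, with `T < Re z ≤ 2T` the
  proportion of those which are not real or not simple is at most `O(exp(-c t log² T))`.

The general theory is project GD2 of helper671 (modules `Y671`, `Y771`, `Y693`, `Y24`, ...), applied
here to products of newforms of arbitrary weights and characters (modules `X284.HW`, `X284.HG`; the
theorems for products are from `X244.AZ`).
-/

set_option autoImplicit false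

open Complex UpperHalfPlane MatrixGroups CongruenceSubgroup

namespace Pool.Agent.Results.MP_7193be_nt.HeatFlowZeroDensity

/-- The `n`-th Fourier coefficient of `f`. -/
noncomputable def coef {N : ℕ} {k : ℤ} (f : CuspForm (Gamma1 N : Subgroup (GL (Fin 2) ℝ)) k)
    (n : ℕ) : ℂ :=
  (qExpansion 1 f).coeff n

/-- `f ∈ S_k(Γ₁(N))` is a newform of level `N` with character `ψ`: the Fourier coefficients
satisfy `c(1) = 1`, `c(mn) = c(m) c(n)` for coprime `m`, `n`,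
`c(p^(j+2)) = c(p) c(p^(j+1)) - ψ(p) p^(k-1) c(p^j)`, `conj c(n) = conj ψ(n) c(n)` for `n` prime to
`N`, `|c(p)| ≤ 2 p^((k-1)/2)` for `p ∤ N` (Deligne) and `|c(p)| ≤ p^((k-1)/2)` for `p ∣ N`;
`f(γτ) = ψ(d) (cτ + d)^k f(τ)` for `γ = (a b; c d) ∈ Γ₀(N)`; and the Fricke involution takes `f` to a
multiple of `f^c`, `f^c(τ) = conj f(-conj τ)` (Atkin, Lehner, Li):
`f(-1/(Nτ)) = w (√N τ / √-1)^k f^c(τ)` with `|w| = 1`. -/
structure IsNewform (N k : ℕ) (ψ : DirichletCharacter ℂ N)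
    (f : CuspForm (Gamma1 N : Subgroup (GL (Fin 2) ℝ)) (k : ℤ)) (w : ℂ) : Prop where
  one : coef f 1 = 1
  mul : ∀ m n : ℕ, Nat.Coprime m n → coef f (m * n) = coef f m * coef f n
  pow : ∀ p j : ℕ, p.Prime → coef f (p ^ (j + 2)) = coef f p * coef f (p ^ (j + 1)) -
    ψ (p : ZMod N) * (p : ℂ) ^ ((k : ℤ) - 1) * coef f (p ^ j)
  conj : ∀ n : ℕ, Nat.Coprime n N → (starRingEnd ℂ) (coef f n) =
    (starRingEnd ℂ) (ψ (n : ZMod N)) * coef f n
  good : ∀ p : ℕ, p.Prime → ¬ p ∣ N → ‖coef f p‖ ≤ 2 * (p : ℝ) ^ (((k : ℝ) - 1) / 2)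
  bad : ∀ p : ℕ, p.Prime → p ∣ N → ‖coef f p‖ ≤ (p : ℝ) ^ (((k : ℝ) - 1) / 2)
  neb : ∀ γ : SL(2, ℤ), γ ∈ Gamma0 N → ∀ τ : ℍ, f (γ • τ) = ψ ((γ 1 1 : ℤ) : ZMod N) *
    (((γ 1 0 : ℤ) : ℂ) * (τ : ℂ) + ((γ 1 1 : ℤ) : ℂ)) ^ k * f τ
  norm : ‖w‖ = 1
  fricke : ∀ τ τ' τc : ℍ, (τ' : ℂ) * ((N : ℂ) * (τ : ℂ)) = -1 →
    (τc : ℂ) = -(starRingEnd ℂ) (τ : ℂ) →
    f τ' = w * (((Real.sqrt N : ℝ) : ℂ) * (τ : ℂ) / Complex.I) ^ k * (starRingEnd ℂ) (f τc)

/-- A newform `f` of weight `k ≥ 1`, level `N ≥ 1` and character `ψ`. -/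
structure Newform where
  /-- the level -/
  N : ℕ
  N_ne : N ≠ 0
  /-- the weight -/
  k : ℕ
  k_pos : 1 ≤ k
  /-- the character -/
  ψ : DirichletCharacter ℂ N
  /-- the form -/
  f : CuspForm (Gamma1 N : Subgroup (GL (Fin 2) ℝ)) (k : ℤ)
  /-- the constant of the Fricke involution -/
  w : ℂ
  newform : IsNewform N k ψ f w

/-- The local factor at the prime `p` of `L(f, s - t)`:
`(1 - c(p) p^(t-s) + ψ(p) p^(k-1) p^(2(t-s)))⁻¹`. -/
noncomputable def Newform.factor (P : Newform) (t : ℕ) (s : ℂ) (p : ℕ) : ℂ :=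
  (1 - coef P.f p * (p : ℂ) ^ ((t : ℂ) - s) +
    P.ψ (p : ZMod P.N) * (p : ℂ) ^ (P.k - 1) * ((p : ℂ) ^ ((t : ℂ) - s)) ^ 2)⁻¹

/-- `Λ` is the completed L-function in degree `i`: it is entire, and for `Re s > i/2 + 1` it is
`∏_j N_j^((s - i/2)/2) Γ_ℂ(s - t_j)` times the Euler product of the `L(f_j, s - t_j)`. -/
structure IsCompleted {ι : Type} [Fintype ι] (P : ι → Newform) (t : ι → ℕ) (i : ℕ) (Λ : ℂ → ℂ) :
    Prop where
  entire : Differentiable ℂ Λ
  euler : ∀ s : ℂ, (i : ℝ) / 2 + 1 < s.re →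
    HasProd (fun p : Nat.Primes => ∏ j, (P j).factor (t j) s p)
      (Λ s / ∏ j, (((P j).N : ℂ) ^ ((s - (i : ℂ) / 2) / 2) * Complex.Gammaℂ (s - t j)))

/-- The number of points of `A`, each counted with its multiplicity as a zero of `g`. -/
noncomputable def num (g : ℂ → ℂ) (A : Set ℂ) : ℕ := ∑ᶠ z ∈ A, analyticOrderNatAt g z

/-- The zeros of `Λ` with `0 < Im s ≤ T` at distance at least `δ` from the line
`Re s = (i + 1)/2`. -/
def Off (i : ℕ) (Λ : ℂ → ℂ) (δ T : ℝ) : Set ℂ :=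
  {s | Λ s = 0 ∧ δ ≤ |s.re - ((i : ℝ) + 1) / 2| ∧ 0 < s.im ∧ s.im ≤ T}

/-- The heights `t` in `[0, T]` at which `x ↦ |Λ((i + 1)/2 + x + √-1 t)|` is not strictly increasing
for `x ≥ h`. -/
def Bad (i : ℕ) (Λ : ℂ → ℂ) (h T : ℝ) : Set ℝ :=
  {t : ℝ | 0 ≤ t ∧ t ≤ T ∧ ¬ StrictMonoOn
    (fun x : ℝ => ‖Λ (((((i : ℝ) + 1) / 2 : ℝ) : ℂ) + x + t * Complex.I)‖) (Set.Ici h)}

/-- The heat flow `Λ_t = e^{t D²} Λ` (`D = d/ds`) as a Gaussian average:
`Λ_t(s) = π^(-1/2) ∫ exp (-v²) Λ(s + 2 √t v) dv`. -/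
noncomputable def heat (t : ℝ) (Λ : ℂ → ℂ) (s : ℂ) : ℂ :=
  ((1 / Real.sqrt Real.pi : ℝ) : ℂ) *
    ∫ v : ℝ, ((Real.exp (-v ^ 2) : ℝ) : ℂ) * Λ (s + ((2 * Real.sqrt t * v : ℝ) : ℂ))

/-- `Ξ(z) = Λ((i + 1)/2 + √-1 z)`, a function whose zeros are real if and only if the zeros of `Λ` are
on the critical line. -/
noncomputable def Xi (i : ℕ) (Λ : ℂ → ℂ) (z : ℂ) : ℂ :=
  Λ (((((i : ℝ) + 1) / 2 : ℝ) : ℂ) + Complex.I * z)

/-- The zeros of `g` with real part in `(A, B]`. -/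
def Zeros (g : ℂ → ℂ) (A B : ℝ) : Set ℂ := {z | g z = 0 ∧ A < z.re ∧ z.re ≤ B}

/-- Those which are not real or not simple. -/
def Exceptional (g : ℂ → ℂ) (A B : ℝ) : Set ℂ := {z | z ∈ Zeros g A B ∧ (z.im ≠ 0 ∨ deriv g z = 0)}

theorem newfC (P : Newform) : W388.IsNewfC P.N (P.k : ℤ) P.ψ P.f P.w where
  neb := fun γ hγ τ => by
    have h := P.newform.neb γ hγ τ
    rw [h, zpow_natCast, ModularGroup.denom_apply]
  one := P.newform.one
  mul := P.newform.mul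
  pow := P.newform.pow
  conj := P.newform.conj
  sign := P.newform.norm
  fricke := fun τ τ' τc h1 h2 => by
    rw [P.newform.fricke τ τ' τc h1 h2, zpow_natCast]

theorem sat (P : Newform) : Pool.Agent.X284.HW.Sat P.N P.k P.ψ P.f := by
  have : NeZero P.N := ⟨P.N_ne⟩
  exact Pool.Agent.X284.HW.sat_of (newfC P) P.newform.good P.newform.bad

/-- the normalised variable -/
theorem factor_eq (P : Newform) (t i : ℕ) (hw : P.k + 2 * t = i + 1) (s : ℂ) (p : ℕ) (hp : p.Prime) :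
    P.factor t s p = (1 - W388.lamC P.f p * (p : ℂ) ^ (-(s - (i : ℂ) / 2)) +
      Pool.Agent.X284.HW.ps P.ψ p * ((p : ℂ) ^ (-(s - (i : ℂ) / 2))) ^ 2)⁻¹ := by
  have hp0 : (p : ℂ) ≠ 0 := by exact_mod_cast hp.ne_zero
  have : NeZero P.N := ⟨P.N_ne⟩
  have hk : (P.k : ℂ) + 2 * t = i + 1 := by exact_mod_cast hw
  unfold Newform.factor Pool.Agent.X284.HW.ps
  have e1 : coef P.f p = W388.lamC P.f p * (p : ℂ) ^ (((P.k : ℂ) - 1) / 2) := by
    have := W388.lamC_eq P.f p hp.ne_zero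
    rw [Int.cast_natCast] at this
    exact this
  have e2 : (p : ℂ) ^ (((P.k : ℂ) - 1) / 2) * (p : ℂ) ^ ((t : ℂ) - s) =
      (p : ℂ) ^ (-(s - (i : ℂ) / 2)) := by
    rw [← Complex.cpow_add _ _ hp0]
    congr 1
    linear_combination (1 / 2 : ℂ) * hk
  have e3 : (p : ℂ) ^ (P.k - 1) = ((p : ℂ) ^ (((P.k : ℂ) - 1) / 2)) ^ 2 := by
    rw [← Complex.cpow_natCast, sq, ← Complex.cpow_add _ _ hp0]
    congr 1
    rw [Nat.cast_sub P.k_pos]
    push_cast
    ring
  rw [e3, ← e2, e1]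
  congr 1
  ring

theorem gam_ne {s : ℂ} (hs : 0 < s.re) : Complex.Gammaℂ s ≠ 0 := by
  rw [Complex.Gammaℂ_def]
  refine mul_ne_zero (mul_ne_zero two_ne_zero ?_) (Complex.Gamma_ne_zero_of_re_pos hs)
  rw [Ne, Complex.cpow_eq_zero_iff]
  rintro ⟨h4, -⟩
  exact Real.two_pi_pos.ne' (by exact_mod_cast h4)

theorem fac_ne {ι : Type} [Fintype ι] (P : ι → Newform) (t : ι → ℕ) (i : ℕ)
    (hw : ∀ j, (P j).k + 2 * t j = i + 1) {s : ℂ} (hs : (i : ℝ) / 2 + 1 < s.re) :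
    ∏ j, (((P j).N : ℂ) ^ ((s - (i : ℂ) / 2) / 2) * Complex.Gammaℂ (s - t j)) ≠ 0 := by
  refine Finset.prod_ne_zero_iff.2 fun j _ => mul_ne_zero ?_ (gam_ne ?_)
  · rw [Ne, Complex.cpow_eq_zero_iff]
    rintro ⟨h4, -⟩
    exact (P j).N_ne (by exact_mod_cast h4)
  · rw [Complex.sub_re, Complex.natCast_re]
    have h1 : ((P j).k : ℝ) + 2 * t j = i + 1 := by exact_mod_cast hw j
    have h2 : (1 : ℝ) ≤ (P j).k := by exact_mod_cast (P j).k_pos
    linarith

/-- **Main theorem.** Let `f_j` be finitely many newforms of weights `k_j`, arbitrary levels and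
characters, and `i`, `t_j` with `k_j = i + 1 - 2 t_j`.  The completed function
`Λ(s) = ∏_j N_j^((s - i/2)/2) Γ_ℂ(s - t_j) L(f_j, s - t_j)` is entire and unique and
`Λ(i + 1 - s) = w conj Λ(conj s)` with `|w| = 1`.

* For every `c < 1` there is `C` such that for all `δ ≥ 0`, `T ≥ 2` the zeros with `0 < Im s ≤ T`
  at distance at least `δ` from the line `Re s = (i + 1)/2` are finite in number and, with
  multiplicity, at most `C T^(1 - c δ) log T`.
* All zeros are on the line if and only if `x ↦ |Λ((i + 1)/2 + x + √-1 t)|` is strictly increasing on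
  `[0, ∞)` for every real `t`; for every `c < 1` there is `C` such that for all `r ≥ 0`, `T ≥ 2` the set
  of the `t` in `[0, T]` for which it is not strictly increasing on `[r / log T, ∞)` has measure at most
  `C e^(-c r) T`.
* There are `c, C > 0` such that for all `n ≥ 0` and `T` at most the proportion `C e^(-c n)` of the zeros
  of the `n`-th derivative of `Ξ` with `0 < Re z ≤ T`, counted with multiplicity, are not real or
  not simple, and for `T ≥ 2` their number is at most `C e^(-c n) T log T`.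
* If there are at most five forms, there are `c, C > 0` such that for `0 < t ≤ 1/8` and `T ≥ 2`
  at most the proportion `C exp(-c t log² T)` of the zeros of the heat flow `Ξ_t` with
  `T < Re z ≤ 2 T`, counted with multiplicity, are not real or not simple, and their number is at
  most `C exp(-c t log² T) T log T`. -/
theorem result {ι : Type} [Fintype ι] [Nonempty ι] (P : ι → Newform) (t : ι → ℕ) (i : ℕ)
    (hw : ∀ j, (P j).k + 2 * t j = i + 1) :
    ∃ Λ : ℂ → ℂ, IsCompleted P t i Λ ∧ (∀ Λ' : ℂ → ℂ, IsCompleted P t i Λ' → Λ' = Λ) ∧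
      (∃ w : ℂ, ‖w‖ = 1 ∧ ∀ s : ℂ, Λ ((i : ℂ) + 1 - s) = w * (starRingEnd ℂ) (Λ ((starRingEnd ℂ) s))) ∧
      (∀ c : ℝ, c < 1 → ∃ C : ℝ, 0 < C ∧ ∀ δ T : ℝ, 0 ≤ δ → 2 ≤ T → (Off i Λ δ T).Finite ∧
        (num Λ (Off i Λ δ T) : ℝ) ≤ C * T ^ (1 - c * δ) * Real.log T) ∧
      ((∀ s : ℂ, Λ s = 0 → s.re = ((i : ℝ) + 1) / 2) ↔ ∀ t : ℝ, StrictMonoOn
        (fun x : ℝ => ‖Λ (((((i : ℝ) + 1) / 2 : ℝ) : ℂ) + x + t * Complex.I)‖) (Set.Ici 0)) ∧
      (∀ c : ℝ, c < 1 → ∃ C : ℝ, 0 < C ∧ ∀ r T : ℝ, 0 ≤ r → 2 ≤ T →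
        MeasureTheory.volume (Bad i Λ (r / Real.log T) T) ≤
          ENNReal.ofReal (C * Real.exp (-(c * r)) * T)) ∧
      ((∀ (n : ℕ) (T : ℝ), (Zeros (iteratedDeriv n (Xi i Λ)) 0 T).Finite) ∧
        ∃ c C : ℝ, 0 < c ∧ 0 < C ∧ ∀ (n : ℕ) (T : ℝ),
          (num (iteratedDeriv n (Xi i Λ)) (Exceptional (iteratedDeriv n (Xi i Λ)) 0 T) : ℝ) ≤
            C * Real.exp (-(c * n)) *
              num (iteratedDeriv n (Xi i Λ)) (Zeros (iteratedDeriv n (Xi i Λ)) 0 T) ∧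
          (2 ≤ T →
            (num (iteratedDeriv n (Xi i Λ)) (Exceptional (iteratedDeriv n (Xi i Λ)) 0 T) : ℝ) ≤
              C * Real.exp (-(c * n)) * T * Real.log T)) ∧
      (Fintype.card ι ≤ 5 →
        (∀ t T : ℝ, 0 ≤ t → (Zeros (Xi i (heat t Λ)) T (2 * T)).Finite) ∧
        ∃ c C : ℝ, 0 < c ∧ 0 < C ∧ ∀ t T : ℝ, 0 < t → t ≤ 1 / 8 → 2 ≤ T →
          (num (Xi i (heat t Λ)) (Exceptional (Xi i (heat t Λ)) T (2 * T)) : ℝ) ≤
            C * Real.exp (-(c * t * Real.log T ^ 2)) *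
              num (Xi i (heat t Λ)) (Zeros (Xi i (heat t Λ)) T (2 * T)) ∧
          (num (Xi i (heat t Λ)) (Exceptional (Xi i (heat t Λ)) T (2 * T)) : ℝ) ≤
            C * Real.exp (-(c * t * Real.log T ^ 2)) * T * Real.log T) := by
  classical
  have hall : ∀ j, ∃ Λ Z X : ℂ → ℂ, Pool.Agent.X244.AZ.PK 1 Λ Z ∧ Pool.Agent.X284.HG.Good X ∧
      (∃ v : ℂ, v ≠ 0 ∧ ∀ z : ℂ, X z = v * Λ (1 / 2 + z)) ∧
      Pool.Agent.Y671.GL.IsL (W388.lamC (P j).f) Z ∧ Differentiable ℂ Λ ∧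
      (∃ w : ℂ, ‖w‖ = 1 ∧ ∀ s : ℂ, Λ (1 - s) = w * (starRingEnd ℂ) (Λ ((starRingEnd ℂ) s))) ∧
      ∀ s : ℂ, 1 < s.re → Λ s = (((P j).N : ℝ) : ℂ) ^ (s / 2) *
        Complex.Gammaℂ (s + (((((P j).k : ℝ) - 1) / 2 : ℝ) : ℂ)) * Z s := by
    intro j
    have : NeZero (P j).N := ⟨(P j).N_ne⟩
    exact Pool.Agent.X284.HW.one_form (P j).k_pos (newfC (P j)) (sat (P j))
  choose Λ₁ Z X hPK hGood hv hL hd hfe hΛ using hall
  obtain ⟨Λ, hΛd⟩ : ∃ Λ : ℂ → ℂ, Λ = fun s => ∏ j, Λ₁ j (s - (i : ℂ) / 2) := ⟨_, rfl⟩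
  have hΛe : ∀ s, Λ s = ∏ j, Λ₁ j (s - (i : ℂ) / 2) := fun s => by rw [hΛd]
  have hcomp : IsCompleted P t i Λ := by
    refine ⟨?_, fun s hs => ?_⟩
    · rw [hΛd]
      refine Differentiable.fun_finsetProd fun j _ => ?_
      exact (hd j).comp (by fun_prop : Differentiable ℂ fun s : ℂ => s - (i : ℂ) / 2)
    · have hs' : 1 < (s - (i : ℂ) / 2).re := by
        have e : ((i : ℂ) / 2).re = (i : ℝ) / 2 := by
          rw [show ((i : ℂ) / 2) = (((i : ℝ) / 2 : ℝ) : ℂ) by push_cast; rfl, Complex.ofReal_re]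
        rw [Complex.sub_re, e]
        linarith
      have h1 : Λ s / ∏ j, (((P j).N : ℂ) ^ ((s - (i : ℂ) / 2) / 2) * Complex.Gammaℂ (s - t j)) =
          ∏ j, Z j (s - (i : ℂ) / 2) := by
        rw [div_eq_iff (fac_ne P t i hw hs), hΛe, ← Finset.prod_mul_distrib]
        refine Finset.prod_congr rfl fun j _ => ?_
        rw [hΛ j _ hs']
        have e1 : s - (i : ℂ) / 2 + (((((P j).k : ℝ) - 1) / 2 : ℝ) : ℂ) = s - t j := by
          have hk : ((P j).k : ℂ) + 2 * t j = i + 1 := by exact_mod_cast hw j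
          push_cast
          linear_combination (1 / 2 : ℂ) * hk
        rw [e1]
        push_cast
        ring
      rw [h1]
      refine hasProd_prod fun j _ => ?_
      have : NeZero (P j).N := ⟨(P j).N_ne⟩
      have h2 := Pool.Agent.X244.AZ.euler
        (Pool.Agent.X284.HW.frm_al (P j).k_pos (newfC (P j)) (sat (P j))) (hL j) hs'
      refine (congrArg (fun g => HasProd g (Z j (s - (i : ℂ) / 2))) (funext fun p => ?_)).mpr h2
      exact factor_eq (P j) (t j) i (hw j) s p p.2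
  have huniq : ∀ Λ' : ℂ → ℂ, IsCompleted P t i Λ' → Λ' = Λ := by
    intro Λ' h'
    have hopen : IsOpen {s : ℂ | (i : ℝ) / 2 + 1 < s.re} :=
      isOpen_lt continuous_const Complex.continuous_re
    have hmem : (((i : ℝ) / 2 + 2 : ℝ) : ℂ) ∈ {s : ℂ | (i : ℝ) / 2 + 1 < s.re} := by
      show (i : ℝ) / 2 + 1 < ((((i : ℝ) / 2 + 2 : ℝ) : ℂ)).re
      rw [Complex.ofReal_re]
      linarith
    refine AnalyticOnNhd.eq_of_eventuallyEq (fun z _ => h'.entire.analyticAt z)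
      (fun z _ => hcomp.entire.analyticAt z) (z₀ := (((i : ℝ) / 2 + 2 : ℝ) : ℂ)) ?_
    filter_upwards [hopen.mem_nhds hmem] with s hs
    have h1 := (h'.euler s hs).unique (hcomp.euler s hs)
    exact (div_left_inj' (fac_ne P t i hw hs)).1 h1
  have hshift : ∀ z : ℂ, Λ (((((i : ℝ) + 1) / 2 : ℝ) : ℂ) + z) = ∏ j, Λ₁ j (1 / 2 + z) := by
    intro z
    rw [hΛe]
    refine Finset.prod_congr rfl fun j _ => ?_
    congr 1
    push_cast
    ring
  obtain ⟨g1, g2, g3, g4, g5⟩ := Pool.Agent.X284.HW.family hPK hGood hv hd hshift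
  refine ⟨Λ, hcomp, huniq, ?_, g1, g2, g3, ?_, fun h5 => ?_⟩
  · choose w hw1 hw2 using hfe
    refine ⟨∏ j, w j, by rw [norm_prod]; exact Finset.prod_eq_one fun j _ => hw1 j, fun s => ?_⟩
    rw [hΛe, hΛe, map_prod, ← Finset.prod_mul_distrib]
    refine Finset.prod_congr rfl fun j _ => ?_
    have e1 : (i : ℂ) + 1 - s - (i : ℂ) / 2 = 1 - (s - (i : ℂ) / 2) := by ring
    have e2 : (starRingEnd ℂ) (s - (i : ℂ) / 2) = (starRingEnd ℂ) s - (i : ℂ) / 2 := by
      rw [map_sub, map_div₀, Complex.conj_natCast, Complex.conj_ofNat]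
    rw [e1, hw2, e2]
  · obtain ⟨h1, c, C, hc, hC, h2, h3⟩ := g4 (Xi i Λ) fun z => rfl
    have e1 : ∀ (n : ℕ) (T : ℝ), Pool.Agent.Y771.NF.Cnt.ZerD (Xi i Λ) n T =
        Zeros (iteratedDeriv n (Xi i Λ)) 0 T := fun n T => rfl
    have e2 : ∀ (n : ℕ) (T : ℝ), Pool.Agent.Y771.NF.Cnt.ExcD (Xi i Λ) n T =
        Exceptional (iteratedDeriv n (Xi i Λ)) 0 T := by
      intro n T
      unfold Pool.Agent.Y771.NF.Cnt.ExcD Exceptional
      rw [iteratedDeriv_succ]
      rfl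
    refine ⟨fun n T => by rw [← e1]; exact h1 n T, c, C, hc, hC, fun n T => ⟨?_, fun hT => ?_⟩⟩
    · have := h2 n T
      rw [e1, e2] at this
      exact this
    · have := h3 n T hT
      rw [e2] at this
      exact this
  · obtain ⟨h1, c, C, hc, hC, h2⟩ := g5 h5 (fun τ => Xi i (heat τ Λ)) fun τ z => rfl
    exact ⟨h1, c, C, hc, hC, h2⟩

end Pool.Agent.Results.MP_7193be_nt.HeatFlowZeroDensity
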