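import Pool.Agent.X293.LG.Pow
import Pool.Agent.Results.MP_7193be_nt.UniformDerivatives

/-!
# The Laguerre inequalities for all Hasse-Weil L-functions, with one constant

Let `X` be projective and smooth over `ℤ[1/N]` and let `Λ` be the completed L-function `Λ_A(i; X, s)`, for
even `i` multiplied by `((s - i/2) (s - i/2 - 1))^r` if it has poles of order `r` at `s = i/2`, `i/2 + 1`.
Let `b_i` be the Betti number and `𝔠(t) = A ∏ (1 + |μ + i t|)` the analytic conductor at height `t`, as in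
the starting file `Pool.Agent.Results.MP_7193be_nt.UniformDerivatives`, whose definitions are used.  Put

  `|Λ((i+1)/2 + i t + x)|² = ∑ L_n(t) x^(2n)`   (`x` real).

Part (d) of the problem for `(X, i)` (all zeros of `Λ` on the line `Re s = (i+1)/2`) holds if and only if
`L_n(t) ≥ 0` for all `n` and all real `t` (the generalised Laguerre inequalities).  We prove:

* (I) For all `N`, `X`, `i` for which the continuation and the functional equation (parts (a), (b)) are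
  known or assumed, and whose local factors at the bad primes have reciprocal roots at most `p^(i/2 + θ)`,
  `0 ≤ θ ≤ 1/2` (`θ = 0` is the weight monodromy bound, known for example for curves, surfaces and
  abelian varieties): `L_n(t) > 0` for all `n ≥ ((1 + 2θ)/4 + η) log 𝔠(t) + C b_i`, with ONE constant
  `C = C(θ, η)` for all `N`, `X`, `i`, `A` and `t`.  Hence part (d) is equivalent to `L_n(t) ≥ 0` for the
  remaining pairs `(n, t)`.
* (II) If `θ = 0` and `Λ` has no zeros with `Re s > (i+1)/2 + ϑ`, `0 ≤ ϑ ≤ 1/2`, then `L_n(t) > 0` already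
  for all `n ≥ (ϑ/2 + η) log 𝔠(t) + C(b_i, ϑ, η)`.
* (III) Both without any hypothesis on the continuation for `X = E^g`, `E : y² = x³ - x`, for all `g` and
  all odd `i < 2g`, with `θ = 0`; here `b_i = C(2g, i)` is unbounded.

Proof.  `E(z) = Λ((i+1)/2 + i t + z) conj Λ((i+1)/2 + i t + conj z)` is even and real, and
`L_n(t) = E^(2n)(0)/(2n)!` is a Cauchy integral along the circle through the real saddle point
(modules `Pool.Agent.TH803.LU`, written for Artin L-functions).  New here: Hasse-Weil L-functions of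
arbitrary degree, with poles and with local roots up to `p^(i/2 + θ)`, belong to the class of these
modules with constants that depend on `θ` only (`Pool.Agent.X293.LG`).
-/

set_option autoImplicit false

namespace Pool.Agent.Results.MP_7193be_nt.LaguerreInequalities

open Complex Polynomial
open scoped ComplexConjugate
open Pool.Agent.Results.MP_7193be_nt.UniformDerivatives (Cohomology IsHasseWeil IsCompleted
  analyticConductor)

/-- The reciprocal roots of the local factors at the primes `p ∣ N` are at most `p^(i/2 + θ)`. -/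
def BadRootsAtMost {i : ℕ} (V : Cohomology i) (θ : ℝ) : Prop :=
  ∀ p : ℕ, p.Prime → p ∣ V.N → ∀ z : ℂ, aeval z (V.P p) = 0 →
    (p : ℝ) ^ (-((i : ℝ) / 2 + θ)) ≤ ‖z‖

/-- The `n`-th Laguerre expression of `Λ` at height `t` for the line `Re s = c`: the coefficient of
`x^(2n)` in `|Λ(c + i t + x)|²`, `x` real. -/
noncomputable def L (Λ : ℂ → ℂ) (c : ℝ) (n : ℕ) (t : ℝ) : ℝ :=
  iteratedDeriv (2 * n) (fun x : ℝ => ‖Λ (c + t * I + x)‖ ^ 2) 0 / ((2 * n).factorial : ℝ)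

/-- The theorem on the Laguerre expressions of `Λ` (degree `b`, critical line `Re s = c`, analytic
conductor `𝔠(t)`), with the constants `κ` and `C`: they are positive for `n ≥ κ log 𝔠(t) + C b`, and the
Riemann hypothesis for `Λ` holds if and only if the remaining ones are nonnegative. -/
structure Laguerre (κ C : ℝ) (b : ℕ) (c : ℝ) (𝔠 : ℝ → ℝ) (Λ : ℂ → ℂ) : Prop where
  pos : ∀ (n : ℕ) (t : ℝ), κ * Real.log (𝔠 t) + C * b ≤ n → 0 < L Λ c n t
  grh : (∀ s : ℂ, Λ s = 0 → s.re = c) ↔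
    ∀ (n : ℕ) (t : ℝ), (n : ℝ) < κ * Real.log (𝔠 t) + C * b → 0 ≤ L Λ c n t

/-- **The Laguerre inequalities for Hasse-Weil L-functions.** -/
theorem result :
    (∀ θ η : ℝ, 0 ≤ θ → θ ≤ 1 / 2 → 0 < η → ∃ C : ℝ, 0 < C ∧
      ∀ (i : ℕ) (V : Cohomology i), BadRootsAtMost V θ →
        ∀ (A : ℝ) (r : ℕ) (Λ : ℂ → ℂ), V.Continued A r Λ →
          Laguerre ((1 + 2 * θ) / 4 + η) C V.betti (((i : ℝ) + 1) / 2) (V.analyticConductor A) Λ) ∧
    (∀ (η ϑ : ℝ) (b : ℕ), 0 < η → 0 ≤ ϑ → ϑ ≤ 1 / 2 → ∃ C : ℝ,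
      ∀ (i : ℕ) (V : Cohomology i), BadRootsAtMost V 0 → V.betti = b →
        ∀ (A : ℝ) (r : ℕ) (Λ : ℂ → ℂ), V.Continued A r Λ →
          (∀ s : ℂ, Λ s = 0 → s.re ≤ ((i : ℝ) + 1) / 2 + ϑ) → ∀ (n : ℕ) (t : ℝ),
            (ϑ / 2 + η) * Real.log (V.analyticConductor A t) + C ≤ n →
              0 < L Λ (((i : ℝ) + 1) / 2) n t) ∧
    (∀ η : ℝ, 0 < η → ∃ C : ℝ, 0 < C ∧ ∀ g i : ℕ, Odd i → i < 2 * g →
      ∃ L Λ : ℂ → ℂ, IsHasseWeil g i L ∧ IsCompleted g i L Λ ∧
        (∀ s : ℂ, Λ (conj s) = conj (Λ s)) ∧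
        (∃ r : ℕ, r ≤ 1 ∧ ∀ s : ℂ, Λ (i + 1 - s) = (-1) ^ r * Λ s) ∧
        Laguerre (1 / 4 + η) C ((2 * g).choose i) (((i : ℝ) + 1) / 2) (analyticConductor g i) Λ) ∧
    (∀ (η ϑ : ℝ) (g i : ℕ), 0 < η → 0 ≤ ϑ → ϑ ≤ 1 / 2 → Odd i → i < 2 * g → ∃ (C : ℝ)
      (L₀ Λ : ℂ → ℂ), IsHasseWeil g i L₀ ∧ IsCompleted g i L₀ Λ ∧
        ((∀ s : ℂ, Λ s = 0 → s.re ≤ ((i : ℝ) + 1) / 2 + ϑ) → ∀ (n : ℕ) (t : ℝ),
          (ϑ / 2 + η) * Real.log (analyticConductor g i t) + C ≤ n →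
            0 < L Λ (((i : ℝ) + 1) / 2) n t)) := by
  have half : ∀ i : ℕ, (1 / 2 + (i : ℝ) / 2) = ((i : ℝ) + 1) / 2 := fun i => by ring
  refine ⟨fun θ η h0 h1 hη => ?_, fun η ϑ b hη h0 h1 => ?_, fun η hη => ?_,
    fun η ϑ g i hη h0 h1 hi hg => ?_⟩
  · obtain ⟨C, hC, H⟩ := Pool.Agent.X293.LG.hw_lag h0 h1 hη
    refine ⟨C, hC, fun i V hb A r Λ h => ?_⟩
    obtain ⟨l, α, κ, hκ, hlen, hW, hα, hcn⟩ := Pool.Agent.X293.LG.data h0 h1 (i := i) (h := V.hodge)
      (a := V.plus) (b := V.minus) (P := V.P) V.betti_pos V.const (fun p hp => by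
        by_cases hpN : p ∣ V.N
        · exact V.degree_bad p hp hpN
        · exact (V.degree_good p hp hpN).le) (fun p hp z hz => by
        by_cases hpN : p ∣ V.N
        · exact hb p hp hpN z hz
        · rw [V.roots_good p hp hpN z hz]
          exact Real.rpow_le_rpow_of_exponent_le (by exact_mod_cast hp.one_le) (by linarith))
      h.one_le h.r_le h.entire h.order h.fe h.eq
    obtain ⟨p1, p2⟩ := H _ _ _ _ _ _ hW hα
    obtain ⟨t1, t2, -, t4⟩ := Pool.Agent.X293.LG.transport h.entire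
      (X := fun z => (κ : ℂ) * Λ (z + (((i : ℝ) / 2 : ℝ) : ℂ))) (κ := (κ : ℂ)) (e := (i : ℝ) / 2)
      (by exact_mod_cast hκ.ne') (fun z => rfl)
    simp only [hcn, hlen] at p1 p2
    rw [half] at t1 t2 t4
    refine ⟨fun n t hn => (t1 n t).1 (p1 n t hn), ?_⟩
    rw [← t4, p2]
    exact ⟨fun h n t hn => (t2 n t).1 (h n t hn), fun h n t hn => (t2 n t).2 (h n t hn)⟩
  · obtain ⟨C, H⟩ := Pool.Agent.X293.LG.hw_zf hη h0 h1 b
    refine ⟨C, fun i V hb hbt A r Λ h hz n t hn => ?_⟩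
    obtain ⟨l, α, κ, hκ, hlen, hW, hα, hcn⟩ := Pool.Agent.X293.LG.data (θ := 0) le_rfl (by norm_num)
      (i := i) (h := V.hodge) (a := V.plus) (b := V.minus) (P := V.P) V.betti_pos V.const
      (fun p hp => by
        by_cases hpN : p ∣ V.N
        · exact V.degree_bad p hp hpN
        · exact (V.degree_good p hp hpN).le) (fun p hp z hz => by
        by_cases hpN : p ∣ V.N
        · exact hb p hp hpN z hz
        · rw [V.roots_good p hp hpN z hz]
          exact Real.rpow_le_rpow_of_exponent_le (by exact_mod_cast hp.one_le) (by linarith))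
      h.one_le h.r_le h.entire h.order h.fe h.eq
    obtain ⟨t1, t2, t3, -⟩ := Pool.Agent.X293.LG.transport h.entire
      (X := fun z => (κ : ℂ) * Λ (z + (((i : ℝ) / 2 : ℝ) : ℂ))) (κ := (κ : ℂ)) (e := (i : ℝ) / 2)
      (by exact_mod_cast hκ.ne') (fun z => rfl)
    rw [half] at t1 t3
    have hlb : l.length = b := hlen.trans hbt
    subst hlb
    refine (t1 n t).1 (H _ _ _ _ _ hW hα ((t3 ϑ).2 hz) n t ?_)
    rw [hcn]
    exact hn
  · obtain ⟨C, hC, H⟩ := Pool.Agent.TH803.LU.fin_lag hη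
    refine ⟨C, hC, fun g i hi hg => ?_⟩
    obtain ⟨m, rfl⟩ := hi
    obtain ⟨Λ, X, h1, h2, h3, h4, hpk, hX⟩ := Pool.Agent.X293.LG.pow_data g m (by omega)
    obtain ⟨p1, p2⟩ := H _ _ _ _ _ hpk
    obtain ⟨t1, t2, -, t4⟩ := Pool.Agent.X293.LG.transport h1 one_ne_zero hX
    rw [half] at t1 t2 t4
    refine ⟨fun s => Pool.Agent.W355.HW.LL0 g m (s - ((2 * m + 1 : ℕ) : ℂ) / 2), Λ,
      ⟨(Pool.Agent.W355.HW.LL0_diff g m).comp (differentiable_id.sub_const _),
        fun α β hαβ s hs => Pool.Agent.W355.HW.LL0_prod g m α β hαβ s hs⟩, ⟨h1, h2⟩, h3, h4,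
      fun n t hn => (t1 n t).1 (p1 n t hn), ?_⟩
    rw [← t4, p2]
    exact ⟨fun h n t hn => (t2 n t).1 (h n t hn), fun h n t hn => (t2 n t).2 (h n t hn)⟩
  · obtain ⟨m, rfl⟩ := hi
    obtain ⟨C, H⟩ := Pool.Agent.TH803.LU.fin_zf hη h0 h1 ((2 * g).choose (2 * m + 1))
    obtain ⟨Λ, X, h1, h2, h3, h4, hpk, hX⟩ := Pool.Agent.X293.LG.pow_data g m (by omega)
    obtain ⟨t1, t2, t3, -⟩ := Pool.Agent.X293.LG.transport h1 one_ne_zero hX
    rw [half] at t1 t3
    refine ⟨C, fun s => Pool.Agent.W355.HW.LL0 g m (s - ((2 * m + 1 : ℕ) : ℂ) / 2), Λ,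
      ⟨(Pool.Agent.W355.HW.LL0_diff g m).comp (differentiable_id.sub_const _),
        fun α β hαβ s hs => Pool.Agent.W355.HW.LL0_prod g m α β hαβ s hs⟩, ⟨h1, h2⟩,
      fun hz n t hn => (t1 n t).1 (H _ _ _ _ hpk ((t3 ϑ).2 hz) n t hn)⟩

end Pool.Agent.Results.MP_7193be_nt.LaguerreInequalities
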