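import Pool.Agent.X293.LA.Main

/-!
# Zeros on the critical line of the Dedekind zeta functions of large abelian number fields

`X = Spec A[1/n]`, `A` a finite product of rings of integers of subfields `F_j` of the `n`-th cyclotomic
field: this is the general scheme of relative dimension zero, finite and etale over `ℤ[1/n]`, on
whose geometric points Galois acts through the Galois group of the `n`-th cyclotomic field.  Its
L-function `L(0;X,s)` is built from the numbers of points over the finite fields with `p ∤ n`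
elements in characteristic `p`.

We prove, without any hypothesis on zeros and without any average over the fields, a bound for the
zeros with `T < Im s ≤ 2T` that is uniform in the fields, the modulus `n` and the height `T`.  Let
`h = φ(n) / [F_j : ℚ]` be the index of the characters of `F_j` in the characters modulo `n`.  If
`T ≥ C (1 + √(log n) + (h - 1) (1 + log n)²)`, `h ≤ (n T)^a` and `h ≤ (n T)^ζ` (or, instead of the
last condition, if the conductors of the characters of `F_j` are large on average: the product of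
`n / cond χ` over these characters is at most `(n T)^(ζ [F_j : ℚ])`; for `n` prime it is `n`), then the
proportion of the zeros, counted with multiplicity, on the critical line is at least
`2 - c(1 - a) - ε`, with the function `c` of Montgomery and Taylor.  For `a → 0` this is 67.25 per cent.
For the cyclotomic fields themselves (`h = 1`) the only condition is `T ≥ C (1 + √(log n))`; for
subfields of degree `φ(n) / h` with small `h` the condition on the height is `T ≥ C' h (log n)²`.

The same proportion holds for the simple critical zeros of the factors, the L-functions of the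
characters, among all of their zeros, and the proportion of distinct zeros is at least
`(3 - c(1 - a) - ε) / 2`.

Proof.  The characters of `F_j` are the annihilator of a subgroup of order `h` of `(ℤ/n)ˣ`.  The
explicit formula, the trace inequality for the zeros weighted by test functions of
Montgomery-Taylor type, and mean squares of the prime sums over this group of characters and the
height (library of helper762), together with the computation of the number of points of `X` over
finite fields (library `H300R2`).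
-/

set_option autoImplicit false

open Filter Topology NumberField IsCyclotomicExtension.Rat

namespace Pool.Agent.Results.MP_7193be_nt.LargeAbelianFields

/-- The Hasse-Weil L-function `L(0;X,s)` of the zero-dimensional scheme `X = Spec A[1/n]`:
the product over the primes `p` not dividing `n` of
`P₀(X(p)/F_p, p^{-s})⁻¹ = exp (∑_{r ≥ 1} #X(F_{p^r}) p^{-rs} / r)`,
with `X(F_{p^r}) = Hom(A, F_{p^r})`. -/
noncomputable def HW (A : Type) [CommRing A] (n : ℕ) (s : ℂ) : ℂ :=
  ∏' p : Nat.Primes, if (p : ℕ) ∣ n then 1 else H300.HW.localZeta A p s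

/-- the zeros of `F` in the open critical strip with `T₁ < Im s ≤ T₂` -/
def zeros (F : ℂ → ℂ) (T₁ T₂ : ℝ) : Set ℂ :=
  {s : ℂ | 0 < s.re ∧ s.re < 1 ∧ T₁ < s.im ∧ s.im ≤ T₂ ∧ F s = 0}

/-- the number of zeros in the open critical strip with `T₁ < Im s ≤ T₂`, with multiplicity -/
noncomputable def N (F : ℂ → ℂ) (T₁ T₂ : ℝ) : ℕ := ∑ᶠ s ∈ zeros F T₁ T₂, analyticOrderNatAt F s

/-- the number of zeros with `Re s = 1/2` and `T₁ < Im s ≤ T₂`, with multiplicity -/
noncomputable def N₀ (F : ℂ → ℂ) (T₁ T₂ : ℝ) : ℕ :=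
  ∑ᶠ s ∈ {s : ℂ | s ∈ zeros F T₁ T₂ ∧ s.re = 1 / 2}, analyticOrderNatAt F s

/-- the number of the simple zeros with `Re s = 1/2` and `T₁ < Im s ≤ T₂` -/
noncomputable def Nsimple (F : ℂ → ℂ) (T₁ T₂ : ℝ) : ℕ :=
  {s : ℂ | s ∈ zeros F T₁ T₂ ∧ s.re = 1 / 2 ∧ analyticOrderNatAt F s = 1}.ncard

/-- the number of distinct zeros in the open critical strip with `T₁ < Im s ≤ T₂` -/
noncomputable def Ndistinct (F : ℂ → ℂ) (T₁ T₂ : ℝ) : ℕ := (zeros F T₁ T₂).ncard

/-- the function `h/2 + cot(h/√2)/√2` of Montgomery and Taylor, equal to `1.3274...` at `h = 1` -/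
noncomputable def c (h : ℝ) : ℝ := h / 2 + Real.cot (h / Real.sqrt 2) / Real.sqrt 2

section defs

variable (n : ℕ) [NeZero n] {L : Type} [Field L] [NumberField L] [IsCyclotomicExtension {n} ℚ L]

/-- the characters of `Gal(F/ℚ)`, as Dirichlet characters modulo `n`: the characters which are trivial
on the Galois group of `L = ℚ(ζ_n)` over `F` -/
def chars (F : IntermediateField ℚ L) : Set (DirichletCharacter ℂ n) :=
  {χ | ∀ σ ∈ F.fixingSubgroup, χ (galEquivZMod n L σ) = 1}

/-- The field `F` is large: the degree `h` of `L = ℚ(ζ_n)` over `F` is small in terms of `n` and of the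
height `T`. -/
structure Large (C ζ a T : ℝ) (F : IntermediateField ℚ L) : Prop where
  height : C * (1 + Real.sqrt (Real.log n) +
    ((Module.finrank F L : ℝ) - 1) * (1 + Real.log n) ^ 2) ≤ T
  size : (Module.finrank F L : ℝ) ≤ (n * T) ^ a
  conductors : (Module.finrank F L : ℝ) ≤ (n * T) ^ ζ ∨
    ∑ᶠ χ ∈ chars n F, (Real.log n - Real.log (DirichletCharacter.conductor χ)) ≤
      ζ * Real.log (n * T) * Module.finrank ℚ F

end defs

open H300.HW (cnt strip line NN_eq)
open Pool.Agent.X293.LA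
open Pool.Agent.Y762 (coset)

lemma N_eq (F : ℂ → ℂ) (T₁ T₂ : ℝ) : N F T₁ T₂ = cnt F (strip T₁ T₂) := by
  rw [← H300.HW.NN_eq]
  rfl

lemma N₀_eq (F : ℂ → ℂ) (T₁ T₂ : ℝ) : N₀ F T₁ T₂ = cnt F (line T₁ T₂) := by
  have h : {s : ℂ | s ∈ zeros F T₁ T₂ ∧ s.re = 1 / 2} =
      {s : ℂ | s ∈ line T₁ T₂ ∧ F s = 0} := by
    ext s
    simp only [zeros, line, Set.mem_ofPred_eq]
    constructor
    · rintro ⟨⟨-, -, h1, h2, h3⟩, h4⟩
      exact ⟨⟨h4, h1, h2⟩, h3⟩
    · rintro ⟨⟨h1, h2, h3⟩, h4⟩
      exact ⟨⟨by rw [h1]; norm_num, by rw [h1]; norm_num, h2, h3, h4⟩, h1⟩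
  unfold N₀ cnt H370.mult
  rw [h]

lemma chars_eq (n : ℕ) [NeZero n] {L : Type} [Field L] [NumberField L]
    [IsCyclotomicExtension {n} ℚ L] (F : IntermediateField ℚ L) :
    chars n F = (coset (HF n L F) 1 : Set (DirichletCharacter ℂ n)) := by
  ext χ
  rw [Finset.mem_coe, ← mem_HF, H300.HW.mem_YY]
  rfl

lemma Ns_eq (F : ℂ → ℂ) (T₁ T₂ : ℝ) : H370.Ns F T₁ T₂ = Nsimple F T₁ T₂ := rfl

lemma Nd_eq (F : ℂ → ℂ) (T₁ T₂ : ℝ) : H370.Nd F T₁ T₂ = Ndistinct F T₁ T₂ := rfl

lemma NN_N (F : ℂ → ℂ) (T₁ T₂ : ℝ) : H370.NN F T₁ T₂ = N F T₁ T₂ := rfl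

/-- **Main theorem.** -/
theorem result (a ε : ℝ) (ha : 0 ≤ a) (ha1 : a < 1) (hε : 0 < ε) :
    ∃ C ζ : ℝ, 1 ≤ C ∧ 0 < ζ ∧ ∀ (n : ℕ) [NeZero n] (L : Type) [Field L] [NumberField L]
      [IsCyclotomicExtension {n} ℚ L] (ι : Type) [Fintype ι] [Nonempty ι]
      (F : ι → IntermediateField ℚ L), ∃ Λ : ℂ → ℂ,
      (∀ s : ℂ, s ≠ 1 → AnalyticAt ℂ Λ s) ∧
      (∀ s : ℂ, 1 < s.re →
        (∀ p : Nat.Primes, ¬ (p : ℕ) ∣ n → Summable fun r : ℕ =>
          (Nat.card ((∀ j, 𝓞 (F j)) →+* GaloisField p (r + 1)) : ℂ) *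
            ((p : ℕ) : ℂ) ^ (-(((r + 1 : ℕ) : ℂ) * s)) / ((r + 1 : ℕ) : ℂ)) ∧
        (Multipliable fun p : Nat.Primes =>
          if (p : ℕ) ∣ n then 1 else H300.HW.localZeta (∀ j, 𝓞 (F j)) p s) ∧
        Λ s = HW (∀ j, 𝓞 (F j)) n s) ∧
      ∀ T : ℝ, (∀ j, Large n C ζ a T (F j)) →
        (zeros Λ T (2 * T)).Finite ∧
        (1 - ε) * (T / (2 * Real.pi) * Real.log (n * T)) * ∑ j, (Module.finrank ℚ (F j) : ℝ) ≤
          (N Λ T (2 * T) : ℝ) ∧
        (2 - c (1 - a) - ε) * (N Λ T (2 * T) : ℝ) ≤ (N₀ Λ T (2 * T) : ℝ) ∧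
        N Λ T (2 * T) = ∑ j, ∑ᶠ χ ∈ chars n (F j), N (DirichletCharacter.LFunction χ) T (2 * T) ∧
        (2 - c (1 - a) - ε) * (N Λ T (2 * T) : ℝ) ≤
          ((∑ j, ∑ᶠ χ ∈ chars n (F j), Nsimple (DirichletCharacter.LFunction χ) T (2 * T) : ℕ) : ℝ) ∧
        (3 - c (1 - a) - ε) / 2 * (N Λ T (2 * T) : ℝ) ≤
          ((∑ j, ∑ᶠ χ ∈ chars n (F j), Ndistinct (DirichletCharacter.LFunction χ) T (2 * T) : ℕ)
            : ℝ) := by
  classical
  obtain ⟨C, ζ, hC, hζ, H⟩ := Pool.Agent.Y762.coset_L a ε ha ha1 hε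
  refine ⟨C, ζ, hC, hζ, fun n _ L _ _ _ ι _ _ F => ⟨H300.HW.LL n L F, ?_, ?_, ?_⟩⟩
  · intro s hs
    unfold H300.HW.LL
    refine Finset.analyticAt_fun_prod _ (fun x _ => ?_)
    rw [← H300.HW.LF_eq n]
    exact H385.LF_analyticAt n _ hs
  · intro s hs
    have h := H300.HW.hasProd_LL n L F hs
    exact ⟨fun p hp => (H300.HW.localZeta_pi n _ F p hp (by linarith)).1, h.multipliable,
      h.tprod_eq.symm⟩
  · intro T hF
    have hT : 0 < T := by
      obtain ⟨j⟩ := ‹Nonempty ι›
      have h1 := Pool.Agent.Y762.one_le_of_height (T := T) hC n (HF n L (F j))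
        (by rw [card_HF]; exact (hF j).height)
      linarith
    have hcon : ∀ j, Pool.Agent.Y762.Concl (coset (HF n L (F j)) 1) T
        (Pool.Agent.Y762.cH (1 - a) + ε) ε := by
      intro j
      refine H n (HF n L (F j)) 1 T ?_ ?_ ?_
      · rw [card_HF]
        exact (hF j).height
      · rw [card_HF]
        exact (hF j).size
      · rw [card_HF, card_coset]
        refine (hF j).conductors.imp id fun h => ?_
        rw [chars_eq, finsum_mem_coe_finset] at h
        exact h
    obtain ⟨hfin, hN, hN0⟩ := counts n L F hT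
    have e : ∀ f : DirichletCharacter ℂ n → ℕ, ∑ j, ∑ᶠ χ ∈ chars n (F j), f χ =
        ∑ j, ∑ χ ∈ coset (HF n L (F j)) 1, f χ := fun f =>
      Finset.sum_congr rfl fun j _ => by rw [chars_eq, finsum_mem_coe_finset]
    have hNN : N (H300.HW.LL n L F) T (2 * T) = ∑ j, ∑ χ ∈ coset (HF n L (F j)) 1,
        H370.NN (DirichletCharacter.LFunction χ) T (2 * T) := by
      rw [N_eq, hN]
    have hs : (2 - c (1 - a) - ε) * (N (H300.HW.LL n L F) T (2 * T) : ℝ) ≤
        ((∑ j, ∑ χ ∈ coset (HF n L (F j)) 1,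
          H370.Ns (DirichletCharacter.LFunction χ) T (2 * T) : ℕ) : ℝ) := by
      rw [hNN]
      push_cast
      rw [Finset.mul_sum]
      refine Finset.sum_le_sum fun j _ => ?_
      have h1 := (hcon j).1
      have h2 : 2 - c (1 - a) - ε = 2 - (Pool.Agent.Y762.cH (1 - a) + ε) := by
        unfold c Pool.Agent.Y762.cH
        ring
      rw [h2]
      exact h1
    refine ⟨?_, ?_, ?_, ?_, ?_, ?_⟩
    · refine hfin.subset ?_
      rintro s ⟨h1, h2, h3, h4, h5⟩
      exact ⟨⟨h1, h2, h3, h4⟩, h5⟩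
    · rw [hNN, Finset.mul_sum]
      push_cast
      refine Finset.sum_le_sum fun j _ => ?_
      have h1 := (hcon j).2.2
      rw [card_coset] at h1
      exact h1
    · rw [N₀_eq]
      refine hs.trans ?_
      exact_mod_cast hN0
    · rw [hNN, e]
      rfl
    · rw [e]
      exact hs
    · rw [e, hNN]
      push_cast
      rw [Finset.mul_sum]
      refine Finset.sum_le_sum fun j _ => ?_
      have h1 := (hcon j).2.1
      have h2 : (3 - c (1 - a) - ε) / 2 = (3 - (Pool.Agent.Y762.cH (1 - a) + ε)) / 2 := by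
        unfold c Pool.Agent.Y762.cH
        ring
      rw [h2]
      exact h1

end Pool.Agent.Results.MP_7193be_nt.LargeAbelianFields
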